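import Pool.Agent.Q44.PE.Stm
import Pool.Agent.Q96.PG.CL
import Pool.Agent.Q96.PG.VA

/-!
# Project PE (helper44), job PE-IS: components of dimension zero are isolated points
-/

set_option autoImplicit false

namespace Pool.Agent.Q153.PE.IS

open MvPolynomial Pool.Agent.Q44.SA Pool.Agent.Q44.PG Pool.Agent.Q44.PE
open Pool.Agent.Q96.PG.VA (eval_smul van_prime van_homog mem_van)
open Pool.Agent.Q96.PG.FI (map_ne)
open Pool.Agent.Q96.PG.CL (R near_of_R R_of_near)
open Pool.Agent.Q190.SA (eval2_smul)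

section

variable {K : Type} [Field K] {n r : ℕ} {L : Fin r → Type} [∀ i, NontriviallyNormedField (L i)]

theorem clos_ev [∀ i, IsUltrametricDist (L i)] (σ : ∀ i, K →+* L i)
    (I : Ideal (MvPolynomial (Fin n) K)) (x : ∀ i, Fin n → L i) (hx : ∀ i, x i ≠ 0) :
    ∀ᶠ ε in nhdsWithin (0 : ℝ) (Set.Ioi 0), Clos σ I x = Van (Ball σ I ε x) := by
  have ha : ∀ ε : ℝ, 0 < ε → ε < 1 → Van (Ball σ I ε x) ≤ Clos σ I x := by
    intro ε hε hε1 f hf
    refine ⟨fun i => Metric.ball (x i) (ε * ‖x i‖), fun i =>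
      Metric.ball_mem_nhds _ (mul_pos hε (norm_pos_iff.2 (hx i))), fun y hy h t => ?_⟩
    refine hf y ⟨hy, fun i => ?_⟩ t
    obtain ⟨c, -, hc⟩ := h i
    rw [Metric.mem_ball, dist_eq_norm] at hc
    exact R_of_near hε1 (hx i) hc
  have hb : ∀ f ∈ Clos σ I x, ∀ᶠ ε in nhdsWithin (0 : ℝ) (Set.Ioi 0), f ∈ Van (Ball σ I ε x) := by
    rintro f ⟨U, hU, hf⟩
    have h1 : ∀ i, ∀ᶠ ε in nhdsWithin (0 : ℝ) (Set.Ioi 0),
        ∀ u, ‖u - x i‖ ≤ ‖x i‖ * ε → u ∈ U i := by
      intro i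
      obtain ⟨δ, hδ, hball⟩ := Metric.mem_nhds_iff.1 (hU i)
      have h2 : Filter.Tendsto (fun ε : ℝ => ‖x i‖ * ε) (nhdsWithin (0 : ℝ) (Set.Ioi 0))
          (nhds (‖x i‖ * 0)) :=
        (Filter.Tendsto.const_mul _ Filter.tendsto_id).mono_left nhdsWithin_le_nhds
      rw [mul_zero] at h2
      filter_upwards [h2.eventually (gt_mem_nhds hδ)] with ε hε u hu
      apply hball
      rw [Metric.mem_ball, dist_eq_norm]
      exact hu.trans_lt hε
    filter_upwards [Filter.eventually_all.2 h1] with ε hε y hy t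
    refine hf y hy.1 (fun i => ?_) t
    obtain ⟨c, hc, hcu⟩ := near_of_R (hy.2 i)
    exact ⟨c, hc, hε i _ hcu⟩
  obtain ⟨G, hG⟩ := (isNoetherianRing_iff_ideal_fg _).1
    (inferInstance : IsNoetherianRing (MvPolynomial (Fin n) K)) (Clos σ I x)
  have hc : ∀ᶠ ε in nhdsWithin (0 : ℝ) (Set.Ioi 0), ∀ g ∈ G, g ∈ Van (Ball σ I ε x) := by
    rw [Filter.eventually_all_finset]
    intro g hg
    apply hb
    rw [← hG]
    exact Ideal.subset_span hg
  have hd : ∀ᶠ ε in nhdsWithin (0 : ℝ) (Set.Ioi 0), ε < 1 :=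
    nhdsWithin_le_nhds (gt_mem_nhds one_pos)
  filter_upwards [hc, hd, self_mem_nhdsWithin] with ε h1 h2 h3
  refine le_antisymm ?_ (ha ε h3 h2)
  conv_lhs => rw [← hG]
  exact Ideal.span_le.2 h1

theorem clos_rad (σ : ∀ i, K →+* L i) (I : Ideal (MvPolynomial (Fin n) K)) (x : ∀ i, Fin n → L i) :
    (Clos σ I x).radical = Clos σ I x := by
  apply le_antisymm _ Ideal.le_radical
  intro f hf
  obtain ⟨m, U, hU, h⟩ := Ideal.mem_radical_iff.1 hf
  refine ⟨U, hU, fun y hy hyU t => ?_⟩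
  have h1 := h y hy hyU t
  rw [map_pow] at h1
  have hm : m ≠ 0 := by
    intro h0
    rw [h0, pow_zero] at h1
    exact one_ne_zero h1
  exact (pow_eq_zero_iff hm).1 h1

/-- the points on which all the equations of a point vanish are its multiples -/
theorem multiple {P y : Fin n → K} (hP : P ≠ 0) (hy : y ≠ 0)
    (h : (Van {P} : Ideal (MvPolynomial (Fin n) K)) ≤ Van {y}) : ∃ c : K, c ≠ 0 ∧ y = c • P := by
  obtain ⟨b, hb⟩ := Function.ne_iff.1 hP
  have hb' : P b ≠ 0 := hb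
  have h1 : ∀ a, y a * P b = y b * P a := by
    intro a
    have h2 : (X a * C (P b) - X b * C (P a) : MvPolynomial (Fin n) K) ∈
        (Van {P} : Ideal (MvPolynomial (Fin n) K)) := by
      intro z hz t
      rw [Set.mem_singleton_iff.1 hz]
      simp only [map_sub, map_mul, eval_X, eval_C, Pi.smul_apply, smul_eq_mul]
      ring
    have h3 := h h2 y rfl 1
    simp only [map_sub, map_mul, eval_X, eval_C, one_smul] at h3
    exact sub_eq_zero.1 h3
  have h2 : y = (y b / P b) • P := by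
    funext a
    rw [Pi.smul_apply, smul_eq_mul, div_mul_eq_mul_div, eq_div_iff hb', h1 a]
  refine ⟨y b / P b, ?_, h2⟩
  intro h3
  rw [h3, zero_smul] at h2
  exact hy h2

theorem eval2_at {F : Type} [Field F] (τ : K →+* F) (y : Fin n → K)
    (f : MvPolynomial (Fin n) K) : eval₂ τ (τ ∘ y) f = τ (eval y f) := by
  have h := eval₂_comp_left τ (RingHom.id K) y f
  rw [eval₂_id, RingHom.comp_id] at h
  exact h.symm

end

theorem main : E_iso := by
  intro K _ _ n r L _ _ σ I hI hr x hx hhom P hP hmin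
  classical
  set J := Clos σ I x with hJ
  set 𝔭 : Ideal (MvPolynomial (Fin n) K) := Van {P} with h𝔭
  have hfin : J.minimalPrimes.Finite := Ideal.finite_minimalPrimes_of_isNoetherianRing _ J
  have hprime : 𝔭.IsPrime := hmin.1.1
  have hJle : J ≤ 𝔭 := hmin.1.2
  -- an equation of the other components
  obtain ⟨f0, hf0, hf0p⟩ : ∃ f0, (∀ 𝔮 ∈ J.minimalPrimes, 𝔮 ≠ 𝔭 → f0 ∈ 𝔮) ∧ f0 ∉ 𝔭 := by
    have h1 : ¬ ((hfin.toFinset.erase 𝔭).inf id ≤ 𝔭) := by
      intro h2
      obtain ⟨𝔮, hq, hq2⟩ := (hprime.inf_le').1 h2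
      rw [Finset.mem_erase, Set.Finite.mem_toFinset] at hq
      have h3 : 𝔭 ≤ 𝔮 := hmin.2 hq.2.1 hq2
      exact hq.1 (le_antisymm hq2 h3)
    obtain ⟨f0, h3, h4⟩ := SetLike.not_le_iff_exists.1 h1
    refine ⟨f0, fun 𝔮 hq hne => ?_, h4⟩
    exact (Submodule.mem_finsetInf.1 h3) 𝔮 (Finset.mem_erase.2 ⟨hne, hfin.mem_toFinset.2 hq⟩)
  obtain ⟨d, hd⟩ : ∃ d, homogeneousComponent d f0 ∉ 𝔭 := by
    by_contra hcon
    push Not at hcon
    apply hf0p
    rw [← sum_homogeneousComponent f0]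
    exact Ideal.sum_mem _ fun i _ => hcon i
  set f := homogeneousComponent d f0 with hf
  have hfhom : f.IsHomogeneous d := homogeneousComponent_isHomogeneous d f0
  have hfq : ∀ 𝔮 ∈ J.minimalPrimes, 𝔮 ≠ 𝔭 → f ∈ 𝔮 := fun 𝔮 hq hne =>
    hhom 𝔮 hq f0 (hf0 𝔮 hq hne) d
  have hfP : eval P f ≠ 0 := by
    intro h
    apply hd
    intro y hy t
    rw [Set.mem_singleton_iff.1 hy, eval_smul hfhom, h, mul_zero]
  -- the point is in all small balls
  have hball : ∀ i, ∀ᶠ ε in nhdsWithin (0 : ℝ) (Set.Ioi 0),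
      ∃ c : L i, ‖c • (σ i ∘ P) - x i‖ ≤ ‖x i‖ * ε := by
    intro i
    filter_upwards [clos_ev σ I x hx] with ε hε
    obtain ⟨y, hy, hyp⟩ : ∃ y ∈ Ball σ I ε x, 𝔭 ≤ Van {y} := by
      by_contra hcon
      push Not at hcon
      have h1 : f ∈ Van (Ball σ I ε x) := by
        intro y hy t
        have h2 : J ≤ Van {y} := by
          rw [hJ, hε]
          exact Pool.Agent.Q96.PG.VA.van_anti (Set.singleton_subset_iff.2 hy)
        have h3 := van_prime (K := K) y
        obtain ⟨𝔯, hr1, hr2⟩ := Ideal.exists_minimalPrimes_le h2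
        have h4 : 𝔯 ≠ 𝔭 := by
          intro h5
          rw [h5] at hr2
          exact hcon y hy hr2
        exact hr2 (hfq 𝔯 hr1 h4) y rfl t
      rw [← hε] at h1
      exact hd (hJle h1)
    obtain ⟨c, hc, hyc⟩ := multiple hP.1 hy.1.1 hyp
    obtain ⟨c', -, hc'⟩ := near_of_R (hy.2 i)
    refine ⟨c' * σ i c, ?_⟩
    have h1 : (c' * σ i c) • (σ i ∘ P) = c' • (σ i ∘ y) := by
      rw [hyc]
      funext a
      simp only [Pi.smul_apply, Function.comp_apply, smul_eq_mul, map_mul]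
      ring
    rw [h1]
    exact hc'
  -- so `x i` is a multiple of the point
  have hmul : ∀ i, ∃ c : L i, c ≠ 0 ∧ x i = c • (σ i ∘ P) := by
    intro i
    set u := σ i ∘ P with hu
    have hu0 : u ≠ 0 := map_ne (σ i) hP.1
    obtain ⟨b, hb⟩ := Function.ne_iff.1 hu0
    have hb' : u b ≠ 0 := hb
    have h1 : ∀ a, x i a * u b = x i b * u a := by
      intro a
      have h2 : ∀ᶠ ε in nhdsWithin (0 : ℝ) (Set.Ioi 0),
          ‖x i a * u b - x i b * u a‖ ≤ (‖x i‖ * (‖u b‖ + ‖u a‖)) * ε := by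
        filter_upwards [hball i] with ε hε
        obtain ⟨c, hc⟩ := hε
        have h3 : ∀ j, ‖c * u j - x i j‖ ≤ ‖x i‖ * ε := by
          intro j
          have := (norm_le_pi_norm (c • u - x i) j).trans hc
          simpa using this
        have h4 : x i a * u b - x i b * u a =
            (c * u b - x i b) * u a - (c * u a - x i a) * u b := by ring
        rw [h4]
        calc ‖(c * u b - x i b) * u a - (c * u a - x i a) * u b‖
            ≤ ‖(c * u b - x i b) * u a‖ + ‖(c * u a - x i a) * u b‖ := norm_sub_le _ _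
          _ = ‖c * u b - x i b‖ * ‖u a‖ + ‖c * u a - x i a‖ * ‖u b‖ := by rw [norm_mul, norm_mul]
          _ ≤ (‖x i‖ * ε) * ‖u a‖ + (‖x i‖ * ε) * ‖u b‖ :=
              add_le_add (mul_le_mul_of_nonneg_right (h3 b) (norm_nonneg _))
                (mul_le_mul_of_nonneg_right (h3 a) (norm_nonneg _))
          _ = _ := by ring
      have h5 : Filter.Tendsto (fun ε : ℝ => (‖x i‖ * (‖u b‖ + ‖u a‖)) * ε)
          (nhdsWithin (0 : ℝ) (Set.Ioi 0)) (nhds 0) := by
        have h6 : Filter.Tendsto (fun ε : ℝ => (‖x i‖ * (‖u b‖ + ‖u a‖)) * ε)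
          (nhdsWithin (0 : ℝ) (Set.Ioi 0)) (nhds ((‖x i‖ * (‖u b‖ + ‖u a‖)) * 0)) :=
          (Filter.Tendsto.const_mul _ Filter.tendsto_id).mono_left nhdsWithin_le_nhds
        rwa [mul_zero] at h6
      have h6 := ge_of_tendsto h5 h2
      have h7 : ‖x i a * u b - x i b * u a‖ = 0 := le_antisymm h6 (norm_nonneg _)
      exact sub_eq_zero.1 (norm_eq_zero.1 h7)
    have h2 : x i = (x i b / u b) • u := by
      funext a
      rw [Pi.smul_apply, smul_eq_mul, div_mul_eq_mul_div, eq_div_iff hb', h1 a]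
    refine ⟨x i b / u b, ?_, h2⟩
    intro h3
    rw [h3, zero_smul] at h2
    exact hx i h2
  refine ⟨le_antisymm hJle ?_, hmul⟩
  intro g hg
  have hfg : f * g ∈ J := by
    rw [hJ, ← clos_rad, ← Ideal.sInf_minimalPrimes, Submodule.mem_sInf]
    intro 𝔮 hq
    by_cases h1 : 𝔮 = 𝔭
    · rw [h1]
      exact Ideal.mul_mem_left _ _ hg
    · exact Ideal.mul_mem_right _ _ (hfq 𝔮 hq h1)
  obtain ⟨U, hU, hUf⟩ := hfg
  have hne : ∀ i, eval₂ (σ i) (x i) f ≠ 0 := by
    intro i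
    obtain ⟨c, hc, hxc⟩ := hmul i
    rw [hxc, eval2_smul (σ i) hfhom, eval2_at]
    exact mul_ne_zero (pow_ne_zero _ hc) ((map_ne_zero (σ i)).2 hfP)
  have hcont : ∀ i, Continuous fun v : Fin n → L i => eval₂ (σ i) v f := by
    intro i
    have h1 : (fun v : Fin n → L i => eval₂ (σ i) v f) = fun v => eval v (map (σ i) f) := by
      funext v
      rw [eval_map]
    rw [h1]
    exact MvPolynomial.continuous_eval _
  refine ⟨fun i => U i ∩ {v | eval₂ (σ i) v f ≠ 0}, fun i => Filter.inter_mem (hU i) ?_, ?_⟩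
  · exact (hcont i).continuousAt.eventually_ne (hne i)
  · intro y hy hyU t
    have hUy := hUf y hy (fun i => (hyU i).imp fun _ hc => ⟨hc.1, hc.2.1⟩)
    obtain ⟨c, hc, hcU⟩ := hyU ⟨0, hr⟩
    have h1 : eval₂ (σ ⟨0, hr⟩) (c • (σ ⟨0, hr⟩ ∘ y)) f ≠ 0 := hcU.2
    rw [eval2_smul _ hfhom, eval2_at] at h1
    have h2 : eval y f ≠ 0 := by
      intro h3
      apply h1
      rw [h3, map_zero, mul_zero]
    by_cases ht : t = 0
    · rw [ht, zero_smul]
      have h3 := hg P rfl 0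
      rwa [zero_smul] at h3
    · have h3 := hUy t
      rw [map_mul, eval_smul hfhom] at h3
      exact (mul_eq_zero.1 h3).resolve_left (mul_ne_zero (pow_ne_zero _ ht) h2)

end Pool.Agent.Q153.PE.IS
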